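import Pool.Agent.Q216.Flow.Neg
import Pool.Agent.Q216.Flow.Pos
import Pool.Agent.Q216.Flow.Univ

/-!
# MP_091941_lc: finite invariance of flowchart complexity measures

The answer to Q1 is negative: no flowchart measure is finitely invariant (there are universal
interpretations, even finite ones).  Moreover, over a finite interpretation finite invariance fails at
every constant bound `c ≥ 2` (in fact no function has all its finite variants in the class of a constant
bound), whereas over every universal interpretation the classes `Φ(t)` with `t(x) → ∞` are closed under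
finite variants.
-/

set_option autoImplicit false

namespace Pool.Agent.Results.MP_091941_lc.FlowchartFiniteInvariance

open Pool.Agent.Q216.Flow

theorem update_computable (f : ℕ → ℕ) (hf : Computable f) (x₀ v : ℕ) :
    Computable (Function.update f x₀ v) := by
  have h : Function.update f x₀ v = fun x => bif decide (x = x₀) then v else f x := by
    funext x
    by_cases hx : x = x₀
    · subst hx; simp
    · simp [hx]
  rw [h]
  refine Computable.cond ?_ (Computable.const v) hf
  exact ((Primrec.eq (α := ℕ)).comp Primrec.id (Primrec.const x₀)).decide.to_comp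

theorem halt_mem (F : Interp) (v : ℕ) {c : ℕ} (hc : 2 ≤ c) :
    (fun x => init x v) ∈ F.Class (fun _ => c) :=
  ⟨haltF v, computes_of_run (fun x => ⟨1, haltF_exec v (init x)⟩), 0, fun x _ =>
    ⟨init x v, 2, ⟨1, rfl, haltF_exec v (init x)⟩, hc⟩⟩

theorem ae_update (f : ℕ → ℕ) (x₀ v : ℕ) : AE f (Function.update f x₀ v) := by
  refine (Set.finite_singleton x₀).subset ?_
  intro x hx
  by_contra h0
  exact hx (by rw [Function.update_of_ne h0])

theorem result :
    -- there is a finite universal interpretation
    (∃ F : Interp, F.IsFinite ∧ F.Universal) ∧
    -- no flowchart measure is finitely invariant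
    (∀ F : Interp, ¬ F.FinitelyInvariant) ∧
    -- for finite interpretations, finite invariance fails at every constant bound `c ≥ 2`
    (∀ F : Interp, F.IsFinite → ∀ c : ℕ, 2 ≤ c → ∃ f g : ℕ → ℕ, Computable f ∧ Computable g ∧
      AE f g ∧ f ∈ F.Class (fun _ => c) ∧ g ∉ F.Class (fun _ => c)) ∧
    -- in fact every function has a variant, different at one point only, outside of the class
    (∀ F : Interp, F.IsFinite → ∀ (c : ℕ) (f : ℕ → ℕ), ∃ x₀ v : ℕ,
      Function.update f x₀ v ∉ F.Class (fun _ => c)) ∧
    -- for universal interpretations, finite invariance holds at every bound tending to infinity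
    (∀ F : Interp, F.Universal → ∀ t : ℕ → ℕ, Filter.Tendsto t Filter.atTop Filter.atTop →
      ∀ f g : ℕ → ℕ, f ∈ F.Class t → AE f g → g ∈ F.Class t) := by
  refine ⟨⟨U, U_finite, U_universal⟩, not_finitelyInvariant, ?_, fun F hF c f => const_bound hF c f,
    ?_⟩
  · intro F hF c hc
    obtain ⟨x₀, v, h⟩ := const_bound hF c id
    refine ⟨id, _, Computable.id, update_computable id Computable.id x₀ v, ae_update _ _ _, ?_, h⟩
    exact halt_mem F 0 hc
  · intro F hU t ht f g hf hfg
    refine unbounded_bound hU ?_ hf hfg
    intro c
    have := (Filter.tendsto_atTop.1 ht c)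
    rw [Filter.eventually_atTop] at this
    exact this

end Pool.Agent.Results.MP_091941_lc.FlowchartFiniteInvariance
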